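import Pool.Agent.T3h35.MS.D

/-! # MP_7afa8d_nt: the predicted bound for the moments of the exponential sums over square roots
holds for all very large frequencies, for every real `r ≥ 1`

`S h n = ∑_{n/2 ≤ a ≤ n} e(h √a)` and `M r H n = ∑_{H/2 ≤ h ≤ H} |S h n| ^ (2 r)`. -/

set_option autoImplicit false

open Finset

namespace Pool.Agent.Results.MP_7afa8d_nt.VeryLargeFrequencies

/-- `S(h, n) = ∑_{n/2 ≤ a ≤ n} e(h √a)` -/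
noncomputable def S (h n : ℕ) : ℂ :=
  ∑ a ∈ Icc ⌈(n : ℝ) / 2⌉₊ n, Complex.exp (2 * Real.pi * Complex.I * (h * √(a : ℝ) : ℝ))

/-- `M_{2r}(H, n) = ∑_{H/2 ≤ h ≤ H} |S(h, n)|^{2r}` -/
noncomputable def M (r H : ℝ) (n : ℕ) : ℝ := ∑ h ∈ Icc ⌈H / 2⌉₊ ⌊H⌋₊, ‖S h n‖ ^ (2 * r)

theorem S_eq (h n : ℕ) : S h n = T3h35.MS.S h n := rfl

/-- For every real `r ≥ 1` there is `C`, depending only on `r`, such that for all `n ≥ 1` and all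
real `H ≥ n ^ (⌈r⌉ + 4 ^ ⌈r⌉ / 2)`, `M_{2r}(H, n) ≤ C * H * (n * (1 + log n)) ^ r`. -/
theorem result (r : ℝ) (hr : 1 ≤ r) : ∃ C : ℝ, ∀ n : ℕ, 1 ≤ n → ∀ H : ℝ,
    (n : ℝ) ^ (⌈r⌉₊ + 4 ^ ⌈r⌉₊ / 2) ≤ H → M r H n ≤ C * H * (n * (1 + Real.log n)) ^ r := by
  obtain ⟨k, hk⟩ : ∃ k, k = ⌈r⌉₊ := ⟨_, rfl⟩
  rw [← hk]
  have hr0 : 0 < r := by linarith
  have hkr : r ≤ k := by rw [hk]; exact Nat.le_ceil r
  have hk0 : (0 : ℝ) < k := by linarith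
  obtain ⟨C, hC, hmain⟩ := T3h35.MS.main_nat k
  obtain ⟨p, hp⟩ : ∃ p : ℝ, p = k / r := ⟨_, rfl⟩
  have hp1 : 1 ≤ p := by rw [hp, le_div_iff₀ hr0]; linarith
  have hp0 : 0 < p := by linarith
  refine ⟨C ^ (1 / p), fun n hn H hH => ?_⟩
  have hnr : (1 : ℝ) ≤ n := by exact_mod_cast hn
  have hlog : 0 ≤ Real.log n := Real.log_nonneg hnr
  have hH1 : 1 ≤ H := le_trans (one_le_pow₀ hnr) hH
  have hH0 : 0 ≤ H := by linarith
  have hB0 : 0 ≤ (n : ℝ) * (1 + Real.log n) := by positivity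
  have h0 := hmain n hn H hH
  have hcardH : ((Icc ⌈H / 2⌉₊ ⌊H⌋₊).card : ℝ) ≤ H := by
    rw [Nat.card_Icc]
    have h2 : 0 < ⌈H / 2⌉₊ := Nat.ceil_pos.2 (by linarith)
    have h3 : ⌊H⌋₊ + 1 - ⌈H / 2⌉₊ ≤ ⌊H⌋₊ := by omega
    exact le_trans (by exact_mod_cast h3) (Nat.floor_le (by linarith))
  have hM0 : 0 ≤ M r H n := sum_nonneg fun h _ => by positivity
  have h1 : (M r H n) ^ p ≤ ((Icc ⌈H / 2⌉₊ ⌊H⌋₊).card : ℝ) ^ (p - 1) *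
      ∑ h ∈ Icc ⌈H / 2⌉₊ ⌊H⌋₊, (‖S h n‖ ^ (2 * r)) ^ p :=
    Real.rpow_sum_le_const_mul_sum_rpow_of_nonneg (Icc ⌈H / 2⌉₊ ⌊H⌋₊) hp1
      fun h _ => by positivity
  have h2 : ∑ h ∈ Icc ⌈H / 2⌉₊ ⌊H⌋₊, (‖S h n‖ ^ (2 * r)) ^ p =
      ∑ h ∈ Icc ⌈H / 2⌉₊ ⌊H⌋₊, ‖T3h35.MS.S h n‖ ^ (2 * k) := by
    refine sum_congr rfl fun h _ => ?_
    rw [← Real.rpow_mul (norm_nonneg _), S_eq, ← Real.rpow_natCast]
    congr 1
    rw [hp]
    push_cast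
    field_simp
  have h3 : (M r H n) ^ p ≤ C * H ^ p * (n * (1 + Real.log n)) ^ k := by
    refine h1.trans ?_
    rw [h2]
    have h4 : ((Icc ⌈H / 2⌉₊ ⌊H⌋₊).card : ℝ) ^ (p - 1) ≤ H ^ (p - 1) :=
      Real.rpow_le_rpow (Nat.cast_nonneg _) hcardH (by linarith)
    refine (mul_le_mul h4 h0 (sum_nonneg fun h _ => by positivity) (by positivity)).trans ?_
    have h5 : H ^ p = H ^ (p - 1) * H := by
      rw [← Real.rpow_add_one (by linarith : H ≠ 0)]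
      congr 1
      ring
    rw [h5]
    apply le_of_eq
    ring
  have h6 : M r H n = ((M r H n) ^ p) ^ (1 / p) := by
    rw [← Real.rpow_mul hM0, mul_one_div_cancel hp0.ne', Real.rpow_one]
  rw [h6]
  refine (Real.rpow_le_rpow (by positivity) h3 (by positivity)).trans (le_of_eq ?_)
  rw [Real.mul_rpow (by positivity) (by positivity), Real.mul_rpow hC (by positivity),
    ← Real.rpow_mul hH0, mul_one_div_cancel hp0.ne', Real.rpow_one, ← Real.rpow_natCast,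
    ← Real.rpow_mul hB0]
  congr 2
  rw [hp]
  field_simp

end Pool.Agent.Results.MP_7afa8d_nt.VeryLargeFrequencies
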